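import Pool.Agent.P.MP_d39174_gt.All.M4
import Pool.Agent.P.MP_d39174_gt.All.M6

/-! The proportion of critical points of the systole function with bounded systole tends to
zero as the genus tends to infinity. -/

namespace Pool.Agent.Results.MP_d39174_gt.Ratio

open Filter Topology Pool.Agent.P.MP_d39174_gt

theorem result (C : ℝ) (_hC : 0 < C) :
    (∀ᶠ g : ℕ in atTop, (Crit g).Finite ∧ (Crit g).Nonempty) ∧
      Tendsto (fun g : ℕ => ((CritLt g C).ncard : ℝ) / ((Crit g).ncard : ℝ)) atTop (𝓝 0) := by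
  have fin : ∀ g, (Crit g).Finite := fun g => by
    obtain ⟨C', hC'⟩ := crit_bound g
    obtain ⟨q, K, -, h⟩ := upper C'
    refine (h g).1.subset ?_
    rintro _ ⟨Γ, ⟨h1, h2⟩, rfl⟩
    exact ⟨Γ, ⟨h1, h2, hC' Γ h1 h2⟩, rfl⟩
  obtain ⟨q, K, hq, hu⟩ := upper C
  obtain ⟨K', g₀, hl⟩ := lower (2 * q) (by omega)
  have hb : ∀ g, g₀ ≤ g → (g + 1) ^ (2 * g - g / (2 * q)) ≤ K' ^ g * (Crit g).ncard :=
    fun g hg => by
      obtain ⟨s, -, h2, h3⟩ := hl g hg
      exact h3.trans (Nat.mul_le_mul_left _ (Set.ncard_le_ncard h2 (fin g)))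
  refine ⟨eventually_atTop.2 ⟨g₀, fun g hg => ⟨fin g, ?_⟩⟩,
    num_ratio q K K' hq (fun g => (hu g).2) hb⟩
  refine Set.nonempty_of_ncard_ne_zero fun e => ?_
  have h := hb g hg
  rw [e, mul_zero] at h
  exact absurd h (not_le.2 (by positivity))

end Pool.Agent.Results.MP_d39174_gt.Ratio
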